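import Pool.Agent.Run7.h333.WS.Grp

/-!
# Nonsolvable image: the projective centralizer is trivial; extension of invariant representations
-/

set_option autoImplicit false

namespace Run7.h333.WS

open Run7.h615.ES (G2 sc IsRep sc_mul_comm sc_inj)

variable {Γ E : Type} [Group Γ] [Field E]

theorem coe_sc (c : Eˣ) : ((sc c : G2 E) : Matrix (Fin 2) (Fin 2) E) =
    Matrix.of ![![(c : E), 0], ![0, (c : E)]] := by
  ext i j
  fin_cases i <;> fin_cases j <;> simp [sc, Matrix.algebraMap_matrix_apply]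

/-- the matrices which commute with `M` up to scalars -/
def projCent (M : G2 E) : Subgroup (G2 E) where
  carrier := {g | ∃ c : Eˣ, M * g = sc c * (g * M)}
  one_mem' := ⟨1, by simp⟩
  mul_mem' := by
    rintro g g' ⟨c, hc⟩ ⟨c', hc'⟩
    refine ⟨c * c', ?_⟩
    calc M * (g * g') = (M * g) * g' := by group
      _ = sc c * (g * M) * g' := by rw [hc]
      _ = sc c * (g * (M * g')) := by group
      _ = sc c * (g * (sc c' * (g' * M))) := by rw [hc']
      _ = sc c * ((g * sc c') * (g' * M)) := by group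
      _ = sc c * ((sc c' * g) * (g' * M)) := by rw [← sc_mul_comm c' g]
      _ = sc (c * c') * (g * g' * M) := by rw [map_mul]; group
  inv_mem' := by
    rintro g ⟨c, hc⟩
    refine ⟨c⁻¹, ?_⟩
    rw [map_inv]
    have h1 : g⁻¹ * M = sc c * (M * g⁻¹) := by
      calc g⁻¹ * M = g⁻¹ * (M * g) * g⁻¹ := by group
        _ = g⁻¹ * (sc c * (g * M)) * g⁻¹ := by rw [hc]
        _ = (g⁻¹ * sc c) * g * M * g⁻¹ := by group
        _ = (sc c * g⁻¹) * g * M * g⁻¹ := by rw [← sc_mul_comm]
        _ = sc c * (M * g⁻¹) := by group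
    rw [h1]; group

theorem isSolvable_projCent (M : G2 E) (hM : ¬ ∃ c : Eˣ, M = sc c) :
    Group.IsSolvable (projCent M) := by
  classical
  have hns : (M : Matrix (Fin 2) (Fin 2) E) 0 1 ≠ 0 ∨ (M : Matrix (Fin 2) (Fin 2) E) 1 0 ≠ 0 ∨
      (M : Matrix (Fin 2) (Fin 2) E) 1 1 - (M : Matrix (Fin 2) (Fin 2) E) 0 0 ≠ 0 := by
    by_contra hcon
    push Not at hcon
    obtain ⟨h1, h2, h3⟩ := hcon
    apply hM
    have hdet : (M : Matrix (Fin 2) (Fin 2) E).det ≠ 0 :=
      ((Matrix.isUnit_iff_isUnit_det _).mp M.isUnit).ne_zero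
    rw [Matrix.det_fin_two, h1, zero_mul, sub_zero] at hdet
    refine ⟨Units.mk0 _ (left_ne_zero_of_mul hdet), ?_⟩
    apply Units.ext
    rw [coe_sc]
    ext i j
    fin_cases i <;> fin_cases j
    · simp
    · simpa using h1
    · simpa using h2
    · simpa using (sub_eq_zero.mp h3)
  have hch : ∀ g : projCent M, ∃ c : Eˣ, M * (g : G2 E) = sc c * ((g : G2 E) * M) := fun g => g.2
  choose ψ hψ using hch
  have huniq : ∀ (g : G2 E) (c d : Eˣ), sc c * (g * M) = sc d * (g * M) → c = d :=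
    fun g c d h => sc_inj (mul_right_cancel h)
  let f : projCent M →* Eˣ := MonoidHom.mk' ψ (by
    intro a b
    apply huniq ((a * b : projCent M) : G2 E)
    rw [← hψ (a * b), Subgroup.coe_mul, map_mul]
    calc M * ((a : G2 E) * b) = (M * a) * b := by group
      _ = sc (ψ a) * (a * M) * b := by rw [hψ a]
      _ = sc (ψ a) * (a * (M * b)) := by group
      _ = sc (ψ a) * (a * (sc (ψ b) * (b * M))) := by rw [hψ b]
      _ = sc (ψ a) * ((a * sc (ψ b)) * (b * M)) := by group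
      _ = sc (ψ a) * ((sc (ψ b) * a) * (b * M)) := by rw [← sc_mul_comm (ψ b) (a : G2 E)]
      _ = sc (ψ a) * sc (ψ b) * (a * b * M) := by group)
  have hker : Group.IsSolvable f.ker := by
    apply Group.isSolvable_of_comm
    rintro ⟨a, ha⟩ ⟨b, hb⟩
    apply Subtype.ext
    apply Subtype.ext
    have ha' : M * (a : G2 E) = a * M := by
      have h1 := hψ a
      rw [show ψ a = 1 from ha, map_one, one_mul] at h1
      exact h1
    have hb' : M * (b : G2 E) = b * M := by
      have h1 := hψ b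
      rw [show ψ b = 1 from hb, map_one, one_mul] at h1
      exact h1
    apply Units.ext
    have h2 := comm_of_comm hns (congrArg Units.val ha') (congrArg Units.val hb')
    exact h2
  exact Group.isSolvable_of_ker_le_range f.ker.subtype f (by simp)

/-- If the image is not solvable, only the scalar matrices commute with it up to scalars. -/
theorem Big.scalar {K : Subgroup Γ} {R : Γ → G2 E} (hb : Big K R) (M : G2 E)
    (hM : ∀ x ∈ K, ∃ c : Eˣ, M * R x = sc c * (R x * M)) : ∃ c : Eˣ, M = sc c := by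
  by_contra hcon
  have h1 := isSolvable_projCent M hcon
  apply hb
  have h2 : Subgroup.closure (R '' (K : Set Γ)) ≤ projCent M := by
    rw [Subgroup.closure_le]
    rintro _ ⟨x, hx, rfl⟩
    exact hM x hx
  exact Group.isSolvable_of_isSolvable_injective (Subgroup.inclusion_injective h2)

theorem Big.unique {K : Subgroup Γ} {R : Γ → G2 E} (hb : Big K R) {P Q : G2 E}
    (h : ∀ x ∈ K, ∃ c : Eˣ, P * R x * P⁻¹ = sc c * (Q * R x * Q⁻¹)) : ∃ c : Eˣ, P = sc c * Q := by
  obtain ⟨c, hc⟩ := hb.scalar (Q⁻¹ * P) (by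
    intro x hx
    obtain ⟨d, hd⟩ := h x hx
    refine ⟨d, ?_⟩
    calc Q⁻¹ * P * R x = Q⁻¹ * (P * R x * P⁻¹) * P := by group
      _ = Q⁻¹ * (sc d * (Q * R x * Q⁻¹)) * P := by rw [hd]
      _ = (Q⁻¹ * sc d) * (Q * R x * Q⁻¹) * P := by group
      _ = (sc d * Q⁻¹) * (Q * R x * Q⁻¹) * P := by rw [← sc_mul_comm]
      _ = sc d * (R x * (Q⁻¹ * P)) := by group)
  refine ⟨c, ?_⟩
  rw [sc_mul_comm, ← hc]; group

/-- **Extension.** A representation of a normal subgroup `K` of `G` with nonsolvable image, projectively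
isomorphic to all its conjugates by elements of `G`, extends projectively to `G`. -/
theorem exists_extension {K G : Subgroup Γ} {R : Γ → G2 E} (hR : IsRep K R) (hb : Big K R)
    (hKG : K ≤ G) (hN : (K.subgroupOf G).Normal)
    (hinv : ∀ σ ∈ G, ∃ P : G2 E, ∀ x ∈ K, ∃ c : Eˣ, R (σ * x * σ⁻¹) = sc c * (P * R x * P⁻¹)) :
    ∃ P : Γ → G2 E, (∀ x ∈ G, ∀ y ∈ G, ∃ c : Eˣ, P (x * y) = sc c * (P x * P y)) ∧
      ∀ x ∈ K, ∃ c : Eˣ, P x = sc c * R x := by
  have hconj : ∀ σ ∈ G, ∀ x ∈ K, σ * x * σ⁻¹ ∈ K := by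
    intro σ hσ x hx
    have := hN.conj_mem ⟨x, hKG hx⟩ hx ⟨σ, hσ⟩
    exact this
  have key : ∀ σ : Γ, ∃ Q : G2 E, σ ∈ G → ∀ x ∈ K, ∃ c : Eˣ,
      R (σ * x * σ⁻¹) = sc c * (Q * R x * Q⁻¹) := by
    intro σ
    by_cases hσ : σ ∈ G
    · obtain ⟨Q, hQ⟩ := hinv σ hσ
      exact ⟨Q, fun _ => hQ⟩
    · exact ⟨1, fun h => absurd h hσ⟩
  choose P hP using key
  refine ⟨P, fun x hx y hy => hb.unique fun z hz => ?_, fun x hx => hb.unique fun z hz => ?_⟩
  · obtain ⟨a, ha⟩ := hP (x * y) (G.mul_mem hx hy) z hz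
    obtain ⟨b, hb'⟩ := hP y hy z hz
    obtain ⟨c, hc⟩ := hP x hx (y * z * y⁻¹) (hconj y hy z hz)
    refine ⟨a⁻¹ * (c * b), ?_⟩
    have e1 : x * y * z * (x * y)⁻¹ = x * (y * z * y⁻¹) * x⁻¹ := by group
    rw [e1, hc, hb'] at ha
    have e2 : P (x * y) * R z * (P (x * y))⁻¹ =
        (sc a)⁻¹ * (sc c * (P x * (sc b * (P y * R z * (P y)⁻¹)) * (P x)⁻¹)) := by
      rw [ha]; group
    rw [e2, map_mul, map_mul, map_inv]
    calc (sc a)⁻¹ * (sc c * (P x * (sc b * (P y * R z * (P y)⁻¹)) * (P x)⁻¹))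
        = (sc a)⁻¹ * (sc c * ((P x * sc b) * (P y * R z * (P y)⁻¹) * (P x)⁻¹)) := by group
      _ = (sc a)⁻¹ * (sc c * ((sc b * P x) * (P y * R z * (P y)⁻¹) * (P x)⁻¹)) := by
          rw [← sc_mul_comm b (P x)]
      _ = _ := by group
  · obtain ⟨a, ha⟩ := hP x (hKG hx) z hz
    refine ⟨a⁻¹, ?_⟩
    rw [hR.conj hx hz] at ha
    rw [ha, map_inv]; group

/-- unipotent matrices with the same fixed vector commute -/
theorem comm_of_unip {A C : Matrix (Fin 2) (Fin 2) E} {p q : E} (h : p ≠ 0 ∨ q ≠ 0)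
    (a1 : A 0 0 * p + A 0 1 * q = p) (a2 : A 1 0 * p + A 1 1 * q = q) (a3 : A 0 0 + A 1 1 = 2)
    (b1 : C 0 0 * p + C 0 1 * q = p) (b2 : C 1 0 * p + C 1 1 * q = q) (b3 : C 0 0 + C 1 1 = 2) :
    A * C = C * A := by
  have key : A 0 1 * C 1 0 = C 0 1 * A 1 0 ∧ A 0 1 * (C 1 1 - C 0 0) = C 0 1 * (A 1 1 - A 0 0) ∧
      A 1 0 * (C 1 1 - C 0 0) = C 1 0 * (A 1 1 - A 0 0) := by
    rcases h with h | h
    · refine ⟨mul_left_cancel₀ h (mul_left_cancel₀ h ?_), mul_left_cancel₀ h ?_,
        mul_left_cancel₀ h (mul_left_cancel₀ h (mul_left_cancel₀ h ?_))⟩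
      · linear_combination (A 0 1 * q) * b1 + (p * A 0 1) * b2 - (p * A 0 1 * q) * b3
          - (C 0 1 * q) * a1 - (p * C 0 1) * a2 + (p * C 0 1 * q) * a3
      · linear_combination (p * A 0 1) * b3 - (p * C 0 1) * a3 - (2 * A 0 1) * b1
          + (2 * C 0 1) * a1
      · linear_combination (p ^ 2 * A 1 0 * p) * b3 - (2 * p ^ 2 * A 1 0) * b1
          + (2 * C 0 1 * q) * (q * a1 + p * a2 - p * q * a3)
          - (p ^ 2 * C 1 0 * p) * a3 + (2 * p ^ 2 * C 1 0) * a1
          - (2 * A 0 1 * q) * (q * b1 + p * b2 - p * q * b3)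
    · refine ⟨mul_left_cancel₀ h (mul_left_cancel₀ h ?_),
        mul_left_cancel₀ h (mul_left_cancel₀ h (mul_left_cancel₀ h ?_)), mul_left_cancel₀ h ?_⟩
      · linear_combination C 1 0 * (q * a1 + p * a2 - p * q * a3)
          - A 1 0 * (q * b1 + p * b2 - p * q * b3)
      · linear_combination (q ^ 2 * A 0 1) * (2 * b2 - q * b3)
          - (2 * C 1 0 * p) * (q * a1 + p * a2 - p * q * a3)
          - (q ^ 2 * C 0 1) * (2 * a2 - q * a3)
          + (2 * A 1 0 * p) * (q * b1 + p * b2 - p * q * b3)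
      · linear_combination A 1 0 * (2 * b2 - q * b3) - C 1 0 * (2 * a2 - q * a3)
  obtain ⟨k1, k2, k3⟩ := key
  ext i j
  fin_cases i <;> fin_cases j <;>
    simp only [Matrix.mul_apply, Fin.sum_univ_two, Fin.zero_eta, Fin.mk_one, Fin.isValue]
  · linear_combination k1
  · linear_combination k2
  · linear_combination -k3
  · linear_combination -k1

/-- A nonsolvable image is irreducible. -/
theorem Big.irr {H : Subgroup Γ} {R : Γ → G2 E} (hb : Big H R) : Irr H R := by
  classical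
  intro v hv h
  apply hb
  -- the stabilizer of the line
  let B : Subgroup (G2 E) :=
    { carrier := {g | ∃ a : Eˣ, (g : Matrix (Fin 2) (Fin 2) E).mulVec v = (a : E) • v}
      one_mem' := ⟨1, by simp⟩
      mul_mem' := by
        rintro g g' ⟨a, ha⟩ ⟨b, hb⟩
        refine ⟨a * b, ?_⟩
        rw [Units.val_mul, ← Matrix.mulVec_mulVec, hb, Matrix.mulVec_smul, ha, smul_smul,
          Units.val_mul, mul_comm (b : E)]
      inv_mem' := by
        rintro g ⟨a, ha⟩
        refine ⟨a⁻¹, ?_⟩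
        have h1 : ((g⁻¹ : G2 E) : Matrix (Fin 2) (Fin 2) E).mulVec
            ((g : Matrix (Fin 2) (Fin 2) E).mulVec v) = v := by
          rw [Matrix.mulVec_mulVec, ← Units.val_mul, inv_mul_cancel, Units.val_one,
            Matrix.one_mulVec]
        rw [ha, Matrix.mulVec_smul] at h1
        rw [← h1, smul_smul, h1, Units.val_inv_eq_inv_val, inv_mul_cancel₀ a.ne_zero, one_smul] }
  have hle : Subgroup.closure (R '' (H : Set Γ)) ≤ B := by
    rw [Subgroup.closure_le]
    rintro _ ⟨x, hx, rfl⟩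
    obtain ⟨a, ha⟩ := h x hx
    have ha0 : a ≠ 0 := by
      rintro rfl
      rw [zero_smul] at ha
      apply hv
      have h1 : (((R x)⁻¹ : G2 E) : Matrix (Fin 2) (Fin 2) E).mulVec
          ((R x : Matrix (Fin 2) (Fin 2) E).mulVec v) = v := by
        rw [Matrix.mulVec_mulVec, ← Units.val_mul, inv_mul_cancel, Units.val_one,
          Matrix.one_mulVec]
      rw [ha, Matrix.mulVec_zero] at h1
      exact h1.symm
    exact ⟨Units.mk0 a ha0, ha⟩
  have hch : ∀ g : B, ∃ a : Eˣ, ((g : G2 E) : Matrix (Fin 2) (Fin 2) E).mulVec v = (a : E) • v :=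
    fun g => g.2
  choose ψ hψ using hch
  have huniq : ∀ a b : Eˣ, (a : E) • v = (b : E) • v → a = b := fun a b hab =>
    Units.ext (smul_left_injective E hv hab)
  let f : B →* Eˣ × Eˣ :=
    (MonoidHom.mk' ψ (by
      intro g g'
      apply huniq
      rw [← hψ (g * g'), Subgroup.coe_mul, Units.val_mul, ← Matrix.mulVec_mulVec, hψ g',
        Matrix.mulVec_smul, hψ g, smul_smul, Units.val_mul, mul_comm (ψ g' : E)])).prod
      (Matrix.GeneralLinearGroup.det.comp B.subtype)
  have hker : Group.IsSolvable f.ker := by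
    apply Group.isSolvable_of_comm
    have key : ∀ g : f.ker, (((g : B) : G2 E) : Matrix (Fin 2) (Fin 2) E) 0 0 * v 0 +
        (((g : B) : G2 E) : Matrix (Fin 2) (Fin 2) E) 0 1 * v 1 = v 0 ∧
        (((g : B) : G2 E) : Matrix (Fin 2) (Fin 2) E) 1 0 * v 0 +
        (((g : B) : G2 E) : Matrix (Fin 2) (Fin 2) E) 1 1 * v 1 = v 1 ∧
        (((g : B) : G2 E) : Matrix (Fin 2) (Fin 2) E) 0 0 +
        (((g : B) : G2 E) : Matrix (Fin 2) (Fin 2) E) 1 1 = 2 := by
      rintro ⟨g, hg⟩
      have h1 : ψ g = 1 := congrArg Prod.fst hg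
      have h2 : Matrix.GeneralLinearGroup.det (g : G2 E) = 1 := congrArg Prod.snd hg
      have h3 := hψ g
      rw [h1, Units.val_one, one_smul] at h3
      have h4 := congrFun h3 0
      have h5 := congrFun h3 1
      simp only [Matrix.mulVec, dotProduct, Fin.sum_univ_two] at h4 h5
      have h6 := congrArg Units.val h2
      simp only [Matrix.GeneralLinearGroup.val_det_apply, Units.val_one, Matrix.det_fin_two] at h6
      refine ⟨h4, h5, ?_⟩
      set A := ((g : G2 E) : Matrix (Fin 2) (Fin 2) E)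
      have h7 : v 0 ≠ 0 ∨ v 1 ≠ 0 := by
        by_contra hcon
        push Not at hcon
        apply hv
        ext i
        fin_cases i
        · exact hcon.1
        · exact hcon.2
      rcases h7 with h7 | h7
      · apply mul_left_cancel₀ h7
        linear_combination (-(A 1 1) + 1) * h4 + A 0 1 * h5 + v 0 * h6
      · apply mul_left_cancel₀ h7
        linear_combination (A 1 0) * h4 + (-(A 0 0) + 1) * h5 + v 1 * h6
    have h7 : v 0 ≠ 0 ∨ v 1 ≠ 0 := by
      by_contra hcon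
      push Not at hcon
      apply hv
      ext i
      fin_cases i
      · exact hcon.1
      · exact hcon.2
    intro a b
    obtain ⟨a1, a2, a3⟩ := key a
    obtain ⟨b1, b2, b3⟩ := key b
    apply Subtype.ext
    apply Subtype.ext
    apply Units.ext
    show (((a : B) : G2 E) : Matrix (Fin 2) (Fin 2) E) * (((b : B) : G2 E) : Matrix (Fin 2) (Fin 2) E) =
      (((b : B) : G2 E) : Matrix (Fin 2) (Fin 2) E) * (((a : B) : G2 E) : Matrix (Fin 2) (Fin 2) E)
    exact comm_of_unip h7 a1 a2 a3 b1 b2 b3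
  have hB : Group.IsSolvable B := Group.isSolvable_of_ker_le_range f.ker.subtype f (by simp)
  exact Group.isSolvable_of_isSolvable_injective (G' := B) (Subgroup.inclusion_injective hle)

end Run7.h333.WS
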