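import Pool.Agent.Run7.h615.ES.Core

/-!
# Two-dimensional representations with nonsolvable image (helper333)
-/

set_option autoImplicit false

namespace Run7.h333.WS

open Run7.h615.ES (G2 sc IsRep sc_mul_comm sc_inj)

/-- The field of `K` is a solvable Galois extension of the field of `H`. -/
def SolvOver {Γ : Type} [Group Γ] (K H : Subgroup Γ) : Prop :=
  K ≤ H ∧ ∃ _h : (K.subgroupOf H).Normal, Group.IsSolvable (H ⧸ K.subgroupOf H)

variable {Γ E : Type} [Group Γ] [Field E]

/-- The image of `H` under `R` is not solvable. -/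
def Big (H : Subgroup Γ) (R : Γ → G2 E) : Prop :=
  ¬ Group.IsSolvable (Subgroup.closure (R '' (H : Set Γ)))

/-- No line is stable under all the matrices `R x`, `x ∈ H`. -/
def Irr (H : Subgroup Γ) (R : Γ → G2 E) : Prop :=
  ∀ v : Fin 2 → E, v ≠ 0 →
    ¬ ∀ x ∈ H, ∃ a : E, (R x : Matrix (Fin 2) (Fin 2) E).mulVec v = a • v

/-- Isomorphic over the field of `K` up to a twist by a character. -/
def TwistIso (K : Subgroup Γ) (R R' : Γ → G2 E) : Prop :=
  ∃ (P : G2 E) (χ : Γ → Eˣ), ∀ x ∈ K, R' x = sc (χ x) * (P * R x * P⁻¹)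

theorem TwistIso.symm {K : Subgroup Γ} {R R' : Γ → G2 E} (h : TwistIso K R R') :
    TwistIso K R' R := by
  obtain ⟨P, χ, h⟩ := h
  refine ⟨P⁻¹, fun x => (χ x)⁻¹, fun x hx => ?_⟩
  rw [h x hx, map_inv]
  calc R x = (sc (χ x))⁻¹ * (sc (χ x) * R x) := by group
    _ = (sc (χ x))⁻¹ * (P⁻¹ * (P * (sc (χ x) * R x))) := by group
    _ = (sc (χ x))⁻¹ * (P⁻¹ * (sc (χ x) * (P * R x * P⁻¹)) * P⁻¹⁻¹) := by
        rw [show P * (sc (χ x) * R x) = (P * sc (χ x)) * R x by group, ← sc_mul_comm]
        group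

/-- the homomorphism of a representation -/
noncomputable def hom {H : Subgroup Γ} {R : Γ → G2 E} (h : IsRep H R) : H →* G2 E :=
  MonoidHom.mk' (fun x => R x) fun x y => h x x.2 y y.2

theorem closure_eq {H : Subgroup Γ} {R : Γ → G2 E} (h : IsRep H R) :
    Subgroup.closure (R '' (H : Set Γ)) = (hom h).range := by
  apply le_antisymm
  · rw [Subgroup.closure_le]
    rintro _ ⟨x, hx, rfl⟩
    exact ⟨⟨x, hx⟩, rfl⟩
  · rintro _ ⟨x, rfl⟩
    exact Subgroup.subset_closure ⟨x, x.2, rfl⟩

/-- A nonsolvable image stays nonsolvable over solvable extensions. -/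
theorem Big.res {K H : Subgroup Γ} {R : Γ → G2 E} (hb : Big H R) (h : IsRep H R)
    (hs : SolvOver K H) : Big K R := by
  intro hK
  apply hb
  rw [closure_eq h]
  obtain ⟨-, hN, hq⟩ := hs
  let f := (hom h).rangeRestrict
  have hf : Function.Surjective f := (hom h).rangeRestrict_surjective
  have hn : ((K.subgroupOf H).map f).Normal := hN.map f hf
  rw [Group.isSolvable_iff_subgroup_quotient ((K.subgroupOf H).map f)]
  constructor
  · have hmem : ∀ y : (K.subgroupOf H).map f,
        (((y : (hom h).range) : G2 E)) ∈ Subgroup.closure (R '' (K : Set Γ)) := by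
      rintro ⟨_, x, hx, rfl⟩
      exact Subgroup.subset_closure ⟨x, hx, rfl⟩
    let g : (K.subgroupOf H).map f →* Subgroup.closure (R '' (K : Set Γ)) :=
      ((hom h).range.subtype.comp ((K.subgroupOf H).map f).subtype).codRestrict _ hmem
    have hg : Function.Injective g := by
      intro a b hab
      have h1 := congrArg (fun z : Subgroup.closure (R '' (K : Set Γ)) => (z : G2 E)) hab
      exact Subtype.ext (Subtype.ext h1)
    exact Group.isSolvable_of_isSolvable_injective hg
  · let g : H ⧸ K.subgroupOf H →* (hom h).range ⧸ (K.subgroupOf H).map f :=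
      QuotientGroup.map _ _ f (Subgroup.le_comap_map f _)
    have hg : Function.Surjective g := by
      intro y
      obtain ⟨y, rfl⟩ := QuotientGroup.mk_surjective y
      obtain ⟨x, rfl⟩ := hf y
      exact ⟨(x : H ⧸ K.subgroupOf H), rfl⟩
    exact Group.isSolvable_of_surjective hg

theorem Big.up {K H : Subgroup Γ} {R : Γ → G2 E} (hb : Big K R) (h : K ≤ H) : Big H R := by
  intro hH
  apply hb
  have h1 : Subgroup.closure (R '' (K : Set Γ)) ≤ Subgroup.closure (R '' (H : Set Γ)) :=
    Subgroup.closure_mono (Set.image_mono h)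
  exact Group.isSolvable_of_isSolvable_injective (Subgroup.inclusion_injective h1)

theorem Big.twist {K : Subgroup Γ} {R R' : Γ → G2 E} (hb : Big K R) (h : TwistIso K R R') :
    Big K R' := by
  intro hs
  apply hb
  obtain ⟨P, χ, h⟩ := h
  let S := Subgroup.closure (R' '' (K : Set Γ))
  have : Group.IsSolvable S := hs
  let f : S × Eˣ →* G2 E := MonoidHom.mk' (fun y => (y.1 : G2 E) * sc y.2) (by
    rintro ⟨a, c⟩ ⟨b, d⟩
    show ((a * b : S) : G2 E) * sc (c * d) = (a : G2 E) * sc c * ((b : G2 E) * sc d)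
    rw [map_mul, Subgroup.coe_mul]
    calc (a : G2 E) * b * (sc c * sc d) = a * (b * sc c) * sc d := by group
      _ = a * (sc c * b) * sc d := by rw [sc_mul_comm]
      _ = _ := by group)
  have h2 : Group.IsSolvable f.range := Group.isSolvable_of_surjective f.rangeRestrict_surjective
  have h3 : Subgroup.closure (R '' (K : Set Γ)) ≤ f.range.comap (MulAut.conj P).toMonoidHom := by
    rw [Subgroup.closure_le]
    rintro _ ⟨x, hx, rfl⟩
    refine ⟨(⟨R' x, Subgroup.subset_closure ⟨x, hx, rfl⟩⟩, (χ x)⁻¹), ?_⟩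
    show R' x * sc (χ x)⁻¹ = P * R x * P⁻¹
    rw [h x hx, map_inv, sc_mul_comm]
    group
  have h4 : ∀ y : Subgroup.closure (R '' (K : Set Γ)),
      ((MulAut.conj P).toMonoidHom.comp (Subgroup.subtype _)) y ∈ f.range := fun y => h3 y.2
  let g : Subgroup.closure (R '' (K : Set Γ)) →* f.range :=
    ((MulAut.conj P).toMonoidHom.comp (Subgroup.subtype _)).codRestrict _ h4
  have hg : Function.Injective g := by
    intro a b hab
    have h1 := congrArg (fun z : f.range => (z : G2 E)) hab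
    exact Subtype.ext ((MulAut.conj P).injective h1)
  exact Group.isSolvable_of_isSolvable_injective hg

/-- matrices which commute with a matrix that is not scalar commute with each other -/
theorem comm_of_comm {M A B : Matrix (Fin 2) (Fin 2) E}
    (hM : M 0 1 ≠ 0 ∨ M 1 0 ≠ 0 ∨ M 1 1 - M 0 0 ≠ 0) (hA : M * A = A * M) (hB : M * B = B * M) :
    A * B = B * A := by
  have e : ∀ C : Matrix (Fin 2) (Fin 2) E, M * C = C * M →
      M 0 1 * C 1 0 = C 0 1 * M 1 0 ∧ M 0 1 * (C 1 1 - C 0 0) = C 0 1 * (M 1 1 - M 0 0) ∧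
      M 1 0 * (C 1 1 - C 0 0) = C 1 0 * (M 1 1 - M 0 0) := by
    intro C hC
    have h00 := congrFun (congrFun hC 0) 0
    have h01 := congrFun (congrFun hC 0) 1
    have h10 := congrFun (congrFun hC 1) 0
    simp only [Matrix.mul_apply, Fin.sum_univ_two] at h00 h01 h10
    refine ⟨by linear_combination h00, by linear_combination h01, by linear_combination -h10⟩
  obtain ⟨a1, a2, a3⟩ := e A hA
  obtain ⟨b1, b2, b3⟩ := e B hB
  have key : A 0 1 * B 1 0 = B 0 1 * A 1 0 ∧ A 0 1 * (B 1 1 - B 0 0) = B 0 1 * (A 1 1 - A 0 0) ∧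
      A 1 0 * (B 1 1 - B 0 0) = B 1 0 * (A 1 1 - A 0 0) := by
    rcases hM with hm | hm | hm
    · refine ⟨mul_left_cancel₀ hm ?_, mul_left_cancel₀ hm ?_,
        mul_left_cancel₀ hm (mul_left_cancel₀ hm ?_)⟩
      · linear_combination A 0 1 * b1 - B 0 1 * a1
      · linear_combination A 0 1 * b2 - B 0 1 * a2
      · linear_combination (M 0 1 * A 1 0) * b2 + (B 0 1 * (M 1 1 - M 0 0)) * a1
          - (M 0 1 * B 1 0) * a2 - (A 0 1 * (M 1 1 - M 0 0)) * b1
    · refine ⟨mul_left_cancel₀ hm ?_, mul_left_cancel₀ hm (mul_left_cancel₀ hm ?_),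
        mul_left_cancel₀ hm ?_⟩
      · linear_combination B 1 0 * (-a1) + A 1 0 * b1
      · linear_combination (M 1 0 * A 0 1) * b3 - (B 1 0 * (M 1 1 - M 0 0)) * a1
          - (M 1 0 * B 0 1) * a3 + (A 1 0 * (M 1 1 - M 0 0)) * b1
      · linear_combination A 1 0 * b3 - B 1 0 * a3
    · refine ⟨mul_left_cancel₀ hm (mul_left_cancel₀ hm ?_), mul_left_cancel₀ hm ?_,
        mul_left_cancel₀ hm ?_⟩
      · linear_combination (-(M 1 1 - M 0 0) * B 1 0) * a2 - (M 0 1 * (A 1 1 - A 0 0)) * b3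
          + (M 1 1 - M 0 0) * A 1 0 * b2 + (M 0 1 * (B 1 1 - B 0 0)) * a3
      · linear_combination -(B 1 1 - B 0 0) * a2 + (A 1 1 - A 0 0) * b2
      · linear_combination -(B 1 1 - B 0 0) * a3 + (A 1 1 - A 0 0) * b3
  obtain ⟨k1, k2, k3⟩ := key
  ext i j
  fin_cases i <;> fin_cases j <;>
    simp only [Matrix.mul_apply, Fin.sum_univ_two, Fin.zero_eta, Fin.mk_one, Fin.isValue]
  · linear_combination k1
  · linear_combination k2
  · linear_combination -k3
  · linear_combination -k1

end Run7.h333.WS
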