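import Pool.Agent.Run7.h333.WS.Ext

/-!
# Two-dimensional mod `p` representations over totally real fields: the known facts, and consequences

`Γ = Gal(ℚ̄/ℚ)`, `E` an algebraic closure of the field with `p ≥ 7` elements. A number field `K` is given by
the open subgroup `Gal(ℚ̄/K)`, and a representation of `Gal(ℚ̄/K)` by a map on `Γ` of which only the values
on this subgroup matter.
-/

set_option autoImplicit false

namespace Run7.h333.WS

open Run7.h615.ES (G2 sc IsRep sc_mul_comm sc_inj)

/-- The objects of the theorem. -/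
structure Setting (Γ E : Type) [Group Γ] [Field E] where
  /-- the open subgroups -/
  Op : Set (Subgroup Γ)
  /-- the complex conjugations -/
  Cc : Set Γ
  /-- `R` is a modular representation of `H`: the reduction of the representation of a Hilbert modular
  eigenform of weights `≥ 2` over the field of `H` -/
  Mod : Subgroup Γ → (Γ → G2 E) → Prop
  /-- `R` is unramified at all finite places of the field of `H`, trivial on the decomposition groups at
  the places above `p`, and its determinant is the cyclotomic character modulo `p` -/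
  Unr : Subgroup Γ → (Γ → G2 E) → Prop
  /-- two-dimensional `p`-adic representations of `H`, totally odd, unramified at almost all places,
  potentially Barsotti-Tate at the places above `p` -/
  Geo : Subgroup Γ → Type
  /-- restriction from `H` to `K` -/
  res : (H K : Subgroup Γ) → Geo H → Geo K
  /-- `R` is the reduction of `ρ` -/
  Red : (H : Subgroup Γ) → Geo H → (Γ → G2 E) → Prop
  /-- `ρ` is the representation of a Hilbert modular eigenform of parallel weight 2 -/
  Aut : (H : Subgroup Γ) → Geo H → Prop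

namespace Setting

variable {Γ E : Type} [Group Γ] [Field E]

/-- The totally real fields: the open subgroups which contain all complex conjugations. -/
def TR (D : Setting Γ E) : Set (Subgroup Γ) := {H | H ∈ D.Op ∧ D.Cc ⊆ H}

/-- `R` is a continuous totally odd representation of `H`. -/
structure Rho (D : Setting Γ E) (H : Subgroup Γ) (R : Γ → G2 E) : Prop where
  rep : IsRep H R
  cont : ∃ U ∈ D.Op, U ≤ H ∧ ∀ x ∈ U, R x = 1
  odd : ∀ c ∈ D.Cc, (R c : Matrix (Fin 2) (Fin 2) E).det = -1

/-- The weak Serre conjecture over the field of `H`. -/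
def SerreOver (D : Setting Γ E) (H : Subgroup Γ) : Prop :=
  ∀ R, D.Rho H R → Irr H R → D.Mod H R

/-- The representation `R` of `H` is invariant over the field of `G`: over a totally real field, which is
solvable over the fields of `H` and of `G`, it is isomorphic to all its conjugates by elements of `G`,
up to twists by characters. -/
def InvOver (D : Setting Γ E) (G H : Subgroup Γ) (R : Γ → G2 E) : Prop :=
  ∃ K ∈ D.TR, SolvOver K H ∧ SolvOver K G ∧
    ∀ σ ∈ G, ∃ P : G2 E, ∀ x ∈ K, ∃ c : Eˣ, R (σ * x * σ⁻¹) = sc c * (P * R x * P⁻¹)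

/-- `R` is not invariant over any totally real field over which the weak Serre conjecture holds. -/
def Remote (D : Setting Γ E) (H : Subgroup Γ) (R : Γ → G2 E) : Prop :=
  ∀ G ∈ D.TR, D.SerreOver G → ¬ D.InvOver G H R

/-- The set `T` of totally real fields contains arbitrarily large solvable totally real extensions
of every totally real field. -/
def Cofinal (D : Setting Γ E) (T : Set (Subgroup Γ)) : Prop :=
  ∀ H ∈ D.TR, ∀ K ∈ D.TR, SolvOver K H → ∃ L ∈ T, L ∈ D.TR ∧ L ≤ K ∧ SolvOver L H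

/-- The set `T` of totally real fields contains all totally real extensions of its elements. -/
def Closed (D : Setting Γ E) (T : Set (Subgroup Γ)) : Prop :=
  ∀ H ∈ T, ∀ K ∈ D.TR, K ≤ H → K ∈ T

end Setting

/-- The field of `K` is a Galois extension of the field of `H` whose Galois group is a nonabelian
simple group. -/
def SimpleOver {Γ : Type} [Group Γ] (K H : Subgroup Γ) : Prop :=
  K ≤ H ∧ ∃ _h : (K.subgroupOf H).Normal, IsSimpleGroup (H ⧸ K.subgroupOf H) ∧
    ¬ ∀ a b : H ⧸ K.subgroupOf H, a * b = b * a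

/-- The known facts, for a prime `p ≥ 7`. -/
structure Known {Γ E : Type} [Group Γ] [Field E] (D : Setting Γ E) : Prop where
  top : ⊤ ∈ D.Op
  inf : ∀ H ∈ D.Op, ∀ K ∈ D.Op, H ⊓ K ∈ D.Op
  up : ∀ K ∈ D.Op, ∀ H, K ≤ H → H ∈ D.Op
  index : ∀ K ∈ D.Op, K.FiniteIndex
  two : ∀ c ∈ D.Cc, c * c = 1
  /-- isomorphism, and twists by characters (Teichmüller lifts) -/
  twist : ∀ H ∈ D.TR, ∀ R R', D.Rho H R → D.Rho H R' → TwistIso H R R' → D.Mod H R → D.Mod H R'
  /-- solvable image: theta series, Langlands, Tunnell (the representation lifts to characteristic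
  zero with the same image; forms of weight one are congruent to forms of higher weight) -/
  solvable : ∀ H ∈ D.TR, ∀ R, D.Rho H R → Irr H R → ¬ Big H R → D.Mod H R
  /-- Serre's modularity conjecture (Khare and Wintenberger, Kisin) -/
  serre : ∀ R, D.Rho ⊤ R → Big ⊤ R → D.Mod ⊤ R
  /-- solvable base change (Langlands) -/
  base_change : ∀ H ∈ D.TR, ∀ K ∈ D.TR, SolvOver K H → ∀ R, D.Rho H R → Big H R → D.Mod H R →
    D.Mod K R
  /-- geometric lifts exist (Khare and Wintenberger, Gee, Snowden) -/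
  lift : ∀ H ∈ D.TR, ∀ R, D.Rho H R → Big H R → ∃ ρ : D.Geo H, D.Red H ρ R
  red_res : ∀ H K, K ≤ H → ∀ (ρ : D.Geo H) (R), D.Red H ρ R → D.Red K (D.res H K ρ) R
  /-- modularity lifting (Kisin, Gee, Barnet-Lamb, Gee and Geraghty) -/
  lifting : ∀ K ∈ D.TR, ∀ R, D.Rho K R → Big K R → ∀ ρ : D.Geo K, D.Red K ρ R → D.Mod K R →
    D.Aut K ρ
  /-- solvable descent in characteristic zero (Langlands) -/
  descent : ∀ H ∈ D.TR, ∀ K ∈ D.TR, SolvOver K H → ∀ (ρ : D.Geo H) (R), D.Rho H R → Big H R →
    D.Red H ρ R → D.Aut K (D.res H K ρ) → D.Aut H ρ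
  mod_of_aut : ∀ H ∈ D.TR, ∀ (ρ : D.Geo H) (R), D.Red H ρ R → D.Aut H ρ → D.Mod H R
  /-- potential modularity (Taylor, Snowden) over a totally real Galois extension linearly disjoint
  from a given one -/
  potential : ∀ H ∈ D.TR, ∀ R, D.Rho H R → Big H R →
    ∃ K ∈ D.TR, K ≤ H ∧ (K.subgroupOf H).Normal ∧ Big K R ∧ D.Mod K R
  /-- projective representations lift (Tate) -/
  tate : ∀ G ∈ D.TR, ∀ P : Γ → G2 E,
    (∀ x ∈ G, ∀ y ∈ G, ∃ c : Eˣ, P (x * y) = sc c * (P x * P y)) →
    (∃ U ∈ D.Op, U ≤ G ∧ ∀ x ∈ U, ∃ c : Eˣ, P x = sc c) →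
    ∃ R, IsRep G R ∧ (∃ U ∈ D.Op, U ≤ G ∧ ∀ x ∈ U, R x = 1) ∧ ∀ x ∈ G, ∃ c : Eˣ, R x = sc c * P x
  /-- solvable totally real extensions with given local behaviour: ramification disappears, and the
  field of the determinant times the inverse of the cyclotomic character, which is totally real, is
  absorbed -/
  kill : ∀ H ∈ D.TR, ∀ R, D.Rho H R → ∃ K ∈ D.TR, SolvOver K H ∧ D.Unr K R
  unr_mono : ∀ H ∈ D.TR, ∀ K ∈ D.TR, K ≤ H → ∀ R, D.Unr H R → D.Unr K R

namespace Known

variable {Γ E : Type} [Group Γ] [Field E] {D : Setting Γ E} (h : Known D)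
include h

theorem rho_mono {K H : Subgroup Γ} (hK : K ∈ D.TR) (hKH : K ≤ H) {R : Γ → G2 E}
    (hR : D.Rho H R) : D.Rho K R := by
  obtain ⟨U, hU, hUH, hU1⟩ := hR.cont
  exact ⟨hR.rep.mono hKH, ⟨U ⊓ K, h.inf _ hU _ hK.1, inf_le_right,
    fun x hx => hU1 x (Subgroup.mem_inf.mp hx).1⟩, hR.odd⟩

/-- modularity and solvable extensions -/
theorem mod_iff {K H : Subgroup Γ} (hH : H ∈ D.TR) (hK : K ∈ D.TR) (hs : SolvOver K H)
    {R : Γ → G2 E} (hR : D.Rho H R) (hb : Big H R) : D.Mod H R ↔ D.Mod K R := by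
  refine ⟨h.base_change H hH K hK hs R hR hb, fun hm => ?_⟩
  obtain ⟨ρ, hρ⟩ := h.lift H hH R hR hb
  have h1 := h.lifting K hK R (h.rho_mono hK hs.1 hR) (hb.res hR.rep hs) _
    (h.red_res H K hs.1 ρ R hρ) hm
  exact h.mod_of_aut H hH ρ R hρ (h.descent H hH K hK hs ρ R hR hb hρ h1)

/-- modularity depends only on the class -/
theorem mod_iff_of_twistIso {K H G : Subgroup Γ} (hH : H ∈ D.TR) (hG : G ∈ D.TR) (hK : K ∈ D.TR)
    (hs : SolvOver K H) (hs' : SolvOver K G) {R R' : Γ → G2 E} (hR : D.Rho H R)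
    (hR' : D.Rho G R') (hb : Big H R) (ht : TwistIso K R R') : D.Mod H R ↔ D.Mod G R' := by
  have hbK : Big K R := hb.res hR.rep hs
  have hbK' : Big K R' := hbK.twist ht
  have hRK := h.rho_mono hK hs.1 hR
  have hRK' := h.rho_mono hK hs'.1 hR'
  rw [h.mod_iff hH hK hs hR hb, h.mod_iff hG hK hs' hR' (hbK'.up hs'.1)]
  exact ⟨h.twist K hK R R' hRK hRK' ht, h.twist K hK R' R hRK' hRK ht.symm⟩

/-- invariant representations -/
theorem exists_descent {H G : Subgroup Γ} (hH : H ∈ D.TR) (hG : G ∈ D.TR) {R : Γ → G2 E}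
    (hR : D.Rho H R) (hb : Big H R) (hi : D.InvOver G H R) :
    ∃ R', D.Rho G R' ∧ Big G R' ∧ (D.Mod H R ↔ D.Mod G R') := by
  obtain ⟨K, hK, hs, hs', hinv⟩ := hi
  have hbK : Big K R := hb.res hR.rep hs
  have hRK := h.rho_mono hK hs.1 hR
  obtain ⟨P, hP1, hP2⟩ := exists_extension hRK.rep hbK hs'.1 hs'.2.1 hinv
  obtain ⟨U, hU, hUK, hU1⟩ := hRK.cont
  obtain ⟨R', hR'1, hR'2, hR'3⟩ := h.tate G hG P hP1 ⟨U, hU, hUK.trans hs'.1, fun x hx => by
    obtain ⟨c, hc⟩ := hP2 x (hUK hx)
    exact ⟨c, by rw [hc, hU1 x hx, mul_one]⟩⟩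
  have hkey : ∀ x : Γ, ∃ c : Eˣ, x ∈ K → R' x = sc c * R x := by
    intro x
    by_cases hx : x ∈ K
    · obtain ⟨c, hc⟩ := hP2 x hx
      obtain ⟨d, hd⟩ := hR'3 x (hs'.1 hx)
      exact ⟨d * c, fun _ => by rw [hd, hc, map_mul, mul_assoc]⟩
    · exact ⟨1, fun hx' => absurd hx' hx⟩
  choose χ hχ using hkey
  have ht : TwistIso K R R' := ⟨1, χ, fun x hx => by rw [hχ x hx]; group⟩
  have hodd : ∀ c ∈ D.Cc, (R' c : Matrix (Fin 2) (Fin 2) E).det = -1 := by
    intro c hc
    have hcK : c ∈ K := hK.2 hc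
    have e1 : R c * R c = 1 := by
      rw [← hRK.rep c hcK c hcK, h.two c hc, hRK.rep.one]
    have e2 : R' c * R' c = 1 := by
      rw [← hR'1 c (hs'.1 hcK) c (hs'.1 hcK), h.two c hc, hR'1.one]
    have e3 : χ c * χ c = 1 := by
      apply sc_inj (E := E)
      rw [map_one, map_mul, ← e2, hχ c hcK]
      calc sc (χ c) * sc (χ c) = sc (χ c) * sc (χ c) * (R c * R c) := by rw [e1, mul_one]
        _ = sc (χ c) * (sc (χ c) * R c) * R c := by group
        _ = sc (χ c) * (R c * sc (χ c)) * R c := by rw [sc_mul_comm (χ c) (R c)]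
        _ = sc (χ c) * R c * (sc (χ c) * R c) := by group
    have e4 : ((χ c : Eˣ) : E) * (χ c : Eˣ) = 1 := by rw [← Units.val_mul, e3, Units.val_one]
    rw [hχ c hcK, Units.val_mul, Matrix.det_mul, hR.odd c hc, coe_sc, Matrix.det_fin_two]
    simp [e4]
  have hR' : D.Rho G R' := ⟨hR'1, hR'2, hodd⟩
  exact ⟨R', hR', (hbK.twist ht).up hs'.1, h.mod_iff_of_twistIso hH hG hK hs hs' hR hR' hb ht⟩

theorem mod_of_inv {H G : Subgroup Γ} (hH : H ∈ D.TR) (hG : G ∈ D.TR) {R : Γ → G2 E}
    (hR : D.Rho H R) (hb : Big H R) (hi : D.InvOver G H R) (hS : D.SerreOver G) : D.Mod H R := by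
  obtain ⟨R', h1, h2, h3⟩ := h.exists_descent hH hG hR hb hi
  exact h3.mpr (hS R' h1 h2.irr)

theorem top_mem : ⊤ ∈ D.TR := ⟨h.top, fun _ _ => Subgroup.mem_top _⟩

theorem serreOver_top : D.SerreOver ⊤ := by
  intro R hR hi
  by_cases hb : Big ⊤ R
  · exact h.serre R hR hb
  · exact h.solvable ⊤ h.top_mem R hR hi hb

/-- the reduction -/
theorem reduction {T : Set (Subgroup Γ)} (hT : D.Cofinal T)
    (hyp : ∀ L ∈ T, L ∈ D.TR → ∀ R, D.Rho L R → Big L R → D.Unr L R → D.Remote L R → D.Mod L R) :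
    ∀ H ∈ D.TR, D.SerreOver H := by
  intro H hH R hR hi
  by_cases hb : Big H R
  · obtain ⟨K, hK, hs, hu⟩ := h.kill H hH R hR
    obtain ⟨L, hLT, hL, hLK, hLs⟩ := hT H hH K hK hs
    rw [h.mod_iff hH hL hLs hR hb]
    have hRL := h.rho_mono hL hLs.1 hR
    have hbL := hb.res hR.rep hLs
    by_cases hr : D.Remote L R
    · exact hyp L hLT hL R hRL hbL (h.unr_mono K hK L hL hLK R hu) hr
    · simp only [Setting.Remote, not_forall, not_not] at hr
      obtain ⟨G, hG, hS, hinv⟩ := hr
      exact h.mod_of_inv hL hG hRL hbL hinv hS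
  · exact h.solvable H hH R hR hi hb

/-- modularity descends from `K` to `H` if it descends in the extensions with nonabelian simple group -/
theorem simple_induction {T : Set (Subgroup Γ)} (hC : D.Closed T)
    (hyp : ∀ H ∈ T, H ∈ D.TR → ∀ K ∈ D.TR, SimpleOver K H → ∀ R, D.Rho H R → Big K R →
      D.Unr H R → D.Remote H R → (∀ L, K ≤ L → L ≤ H → L ≠ H → D.Mod L R) → D.Mod H R)
    {R : Γ → G2 E} : ∀ (n : ℕ) (K H : Subgroup Γ), (K.subgroupOf H).index ≤ n → H ∈ T → H ∈ D.TR →
      K ∈ D.TR → K ≤ H → (K.subgroupOf H).Normal → D.Rho H R → Big K R → D.Unr H R → D.Mod K R →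
      D.Mod H R := by
  intro n
  induction n with
  | zero =>
    intro K H hn _ _ hK _ _ _ _ _ _
    have := h.index K hK.1
    exact absurd (Nat.le_zero.mp hn) (Subgroup.FiniteIndex.index_ne_zero (H := K.subgroupOf H))
  | succ n ih =>
    intro K H hn hHT hH hK hKH hN hR hb hu hm
    have hfi : K.FiniteIndex := h.index K hK.1
    have hsub : ∀ L, K ≤ L → L ≤ H → L ≠ H → D.Mod L R := by
      intro L hKL hLH hne
      have hL : L ∈ D.TR := ⟨h.up K hK.1 L hKL, hK.2.trans hKL⟩
      have hmul : K.relIndex L * L.relIndex H = K.relIndex H :=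
        Subgroup.relIndex_mul_relIndex K L H hKL hLH
      have h0 : K.relIndex H ≠ 0 := Subgroup.FiniteIndex.index_ne_zero (H := K.subgroupOf H)
      have h1 : L.relIndex H ≠ 1 := fun h1 => hne (le_antisymm hLH (Subgroup.relIndex_eq_one.mp h1))
      have h2 : K.relIndex L < K.relIndex H := by
        rw [← hmul] at h0 ⊢
        have h3 := Nat.pos_of_ne_zero (left_ne_zero_of_mul h0)
        have h4 := Nat.pos_of_ne_zero (right_ne_zero_of_mul h0)
        nlinarith [Nat.lt_of_le_of_ne h4 (Ne.symm h1)]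
      have h5 : (K.subgroupOf L).index ≤ n := by
        have h6 : K.relIndex H ≤ n + 1 := hn
        have h7 : K.relIndex L ≤ n := by omega
        exact h7
      have hN' : (K.subgroupOf L).Normal := by
        constructor
        rintro ⟨k, hkL⟩ hk ⟨l, hl⟩
        exact hN.conj_mem ⟨k, hLH hkL⟩ hk ⟨l, hLH hl⟩
      exact ih K L h5 (hC H hHT L hL hLH) hL hK hKL hN' (h.rho_mono hL hLH hR) hb
        (h.unr_mono H hH L hL hLH R hu) hm
    by_cases hKe : K = H
    · rw [← hKe]; exact hm
    by_cases hex : ∃ N : Subgroup Γ, K ≤ N ∧ N ≤ H ∧ N ≠ K ∧ N ≠ H ∧ (N.subgroupOf H).Normal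
    · obtain ⟨N, hKN, hNH, hNK, hNne, hNn⟩ := hex
      have hNT : N ∈ D.TR := ⟨h.up K hK.1 N hKN, hK.2.trans hKN⟩
      have hmul : K.relIndex N * N.relIndex H = K.relIndex H :=
        Subgroup.relIndex_mul_relIndex K N H hKN hNH
      have h0 : K.relIndex H ≠ 0 := Subgroup.FiniteIndex.index_ne_zero (H := K.subgroupOf H)
      have h1 : K.relIndex N ≠ 1 := fun h1 => hNK (le_antisymm (Subgroup.relIndex_eq_one.mp h1) hKN)
      have h2 : N.relIndex H < K.relIndex H := by
        rw [← hmul] at h0 ⊢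
        have h3 := Nat.pos_of_ne_zero (left_ne_zero_of_mul h0)
        have h4 := Nat.pos_of_ne_zero (right_ne_zero_of_mul h0)
        nlinarith [Nat.lt_of_le_of_ne h3 (Ne.symm h1)]
      have h5 : (N.subgroupOf H).index ≤ n := by
        have h6 : K.relIndex H ≤ n + 1 := hn
        have h7 : N.relIndex H ≤ n := by omega
        exact h7
      exact ih N H h5 hHT hH hNT hNH hNn hR (hb.up hKN) hu (hsub N hKN hNH hNne)
    · have hcor : ∀ M : Subgroup (H ⧸ K.subgroupOf H), M.Normal → M = ⊥ ∨ M = ⊤ := by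
        intro M hM
        let N : Subgroup Γ := (M.comap (QuotientGroup.mk' (K.subgroupOf H))).map H.subtype
        have hmem : ∀ (x : Γ) (hx : x ∈ H), x ∈ N ↔ ((⟨x, hx⟩ : H) : H ⧸ K.subgroupOf H) ∈ M := by
          intro x hx
          constructor
          · rintro ⟨y, hy, hyx⟩
            have : y = ⟨x, hx⟩ := Subtype.ext hyx
            rw [← this]
            exact hy
          · intro hx'
            exact ⟨⟨x, hx⟩, hx', rfl⟩
        have hNH : N ≤ H := Subgroup.map_subtype_le _
        have hKN : K ≤ N := by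
          intro x hx
          rw [hmem x (hKH hx)]
          have h1 : ((⟨x, hKH hx⟩ : H) : H ⧸ K.subgroupOf H) = 1 := by
            rw [QuotientGroup.eq_one_iff]
            exact hx
          rw [h1]
          exact one_mem _
        have hNn : (N.subgroupOf H).Normal := by
          have e : N.subgroupOf H = M.comap (QuotientGroup.mk' (K.subgroupOf H)) := by
            ext x
            exact hmem x x.2
          rw [e]
          exact hM.comap _
        by_cases h1 : N = K
        · left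
          rw [eq_bot_iff]
          intro y hy
          obtain ⟨x, rfl⟩ := QuotientGroup.mk_surjective y
          have hx : (x : Γ) ∈ N := (hmem x x.2).mpr hy
          rw [h1] at hx
          rw [Subgroup.mem_bot, QuotientGroup.eq_one_iff]
          exact hx
        · by_cases h2 : N = H
          · right
            rw [eq_top_iff]
            intro y _
            obtain ⟨x, rfl⟩ := QuotientGroup.mk_surjective y
            have hx : (x : Γ) ∈ N := by rw [h2]; exact x.2
            exact (hmem x x.2).mp hx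
          · exact absurd ⟨N, hKN, hNH, h1, h2, hNn⟩ hex
      by_cases hcomm : ∀ a b : H ⧸ K.subgroupOf H, a * b = b * a
      · exact (h.mod_iff hH hK ⟨hKH, hN, Group.isSolvable_of_comm hcomm⟩ hR (hb.up hKH)).mpr hm
      · by_cases hr : D.Remote H R
        · have hnt : Nontrivial (H ⧸ K.subgroupOf H) := by
            by_contra hcon
            rw [not_nontrivial_iff_subsingleton] at hcon
            exact hcomm fun a b => Subsingleton.elim _ _
          have hsimple : IsSimpleGroup (H ⧸ K.subgroupOf H) :=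
            { exists_pair_ne := hnt.exists_pair_ne
              eq_bot_or_eq_top_of_normal := hcor }
          exact hyp H hHT hH K hK ⟨hKH, hN, hsimple, hcomm⟩ R hR hb hu hr hsub
        · simp only [Setting.Remote, not_forall, not_not] at hr
          obtain ⟨G, hG, hS, hinv⟩ := hr
          exact h.mod_of_inv hH hG hR (hb.up hKH) hinv hS

/-- the reduction to extensions with simple Galois group -/
theorem simple_reduction {T : Set (Subgroup Γ)} (hT : D.Cofinal T) (hC : D.Closed T)
    (hyp : ∀ H ∈ T, H ∈ D.TR → ∀ K ∈ D.TR, SimpleOver K H → ∀ R, D.Rho H R → Big K R →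
      D.Unr H R → D.Remote H R → (∀ L, K ≤ L → L ≤ H → L ≠ H → D.Mod L R) → D.Mod H R) :
    ∀ H ∈ D.TR, D.SerreOver H := by
  refine h.reduction hT fun L hLT hL R hR hb hu _ => ?_
  obtain ⟨K, hK, hKL, hN, hbK, hm⟩ := h.potential L hL R hR hb
  exact h.simple_induction hC hyp _ K L le_rfl hLT hL hK hKL hN hR hbK hu hm

/-- modular over extensions of degree prime to `r` -/
theorem prime_to {H : Subgroup Γ} (hH : H ∈ D.TR) {R : Γ → G2 E} (hR : D.Rho H R)
    (hb : Big H R) : ∃ K ∈ D.TR, K ≤ H ∧ (K.subgroupOf H).Normal ∧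
      (∀ L, K ≤ L → L ≤ H → SolvOver K L → L ∈ D.TR ∧ D.Mod L R) ∧
      ∀ r : ℕ, r.Prime → ∃ L, K ≤ L ∧ L ≤ H ∧ SolvOver K L ∧ ¬ r ∣ (L.subgroupOf H).index := by
  obtain ⟨K, hK, hKH, hN, hbK, hm⟩ := h.potential H hH R hR hb
  refine ⟨K, hK, hKH, hN, ?_, ?_⟩
  · intro L hKL hLH hs
    have hL : L ∈ D.TR := ⟨h.up K hK.1 L hKL, hK.2.trans hKL⟩
    exact ⟨hL, (h.mod_iff hL hK hs (h.rho_mono hL hLH hR) (hbK.up hKL)).mpr hm⟩
  · intro r hr
    have hr' : Fact r.Prime := ⟨hr⟩
    have hfi : K.FiniteIndex := h.index K hK.1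
    have hfi' : (K.subgroupOf H).FiniteIndex := inferInstance
    have hfin : Finite (H ⧸ K.subgroupOf H) := Subgroup.finite_quotient_of_finiteIndex
    obtain ⟨S⟩ : Nonempty (Sylow r (H ⧸ K.subgroupOf H)) := inferInstance
    let L : Subgroup Γ :=
      ((S : Subgroup (H ⧸ K.subgroupOf H)).comap (QuotientGroup.mk' (K.subgroupOf H))).map H.subtype
    have hLH : L ≤ H := Subgroup.map_subtype_le _
    have hmem : ∀ (x : Γ) (hx : x ∈ H), x ∈ L ↔
        ((⟨x, hx⟩ : H) : H ⧸ K.subgroupOf H) ∈ (S : Subgroup (H ⧸ K.subgroupOf H)) := by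
      intro x hx
      constructor
      · rintro ⟨y, hy, hyx⟩
        have : y = ⟨x, hx⟩ := Subtype.ext hyx
        rw [← this]
        exact hy
      · intro hx'
        exact ⟨⟨x, hx⟩, hx', rfl⟩
    have hKL : K ≤ L := by
      intro x hx
      rw [hmem x (hKH hx)]
      have h1 : ((⟨x, hKH hx⟩ : H) : H ⧸ K.subgroupOf H) = 1 := by
        rw [QuotientGroup.eq_one_iff]
        exact hx
      rw [h1]
      exact one_mem _
    have hN' : (K.subgroupOf L).Normal := by
      constructor
      rintro ⟨k, hkL⟩ hk ⟨l, hl⟩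
      exact hN.conj_mem ⟨k, hLH hkL⟩ hk ⟨l, hLH hl⟩
    let φ : L →* (S : Subgroup (H ⧸ K.subgroupOf H)) :=
      ((QuotientGroup.mk' (K.subgroupOf H)).comp (Subgroup.inclusion hLH)).codRestrict _
        (fun x => (hmem x (hLH x.2)).mp x.2)
    have hφ : ∀ x : L, φ x = 1 → x ∈ K.subgroupOf L := by
      intro x hx
      have h1 : ((Subgroup.inclusion hLH x : H) : H ⧸ K.subgroupOf H) = 1 :=
        congrArg Subtype.val hx
      rw [QuotientGroup.eq_one_iff] at h1
      exact h1
    have hφ' : K.subgroupOf L ≤ φ.ker := by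
      intro x hx
      apply Subtype.ext
      show ((Subgroup.inclusion hLH x : H) : H ⧸ K.subgroupOf H) = 1
      rw [QuotientGroup.eq_one_iff]
      exact hx
    have hSsol : Group.IsSolvable (S : Subgroup (H ⧸ K.subgroupOf H)) := by
      have := S.isPGroup'.isNilpotent
      infer_instance
    have hsol : Group.IsSolvable (L ⧸ K.subgroupOf L) := by
      refine Group.isSolvable_of_isSolvable_injective
        (f := QuotientGroup.lift (K.subgroupOf L) φ hφ') ?_
      rw [injective_iff_map_eq_one]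
      intro y hy
      obtain ⟨x, rfl⟩ := QuotientGroup.mk_surjective y
      rw [QuotientGroup.eq_one_iff]
      exact hφ x hy
    refine ⟨L, hKL, hLH, ⟨hKL, hN', hsol⟩, ?_⟩
    have h2 : L.subgroupOf H =
        (S : Subgroup (H ⧸ K.subgroupOf H)).comap (QuotientGroup.mk' (K.subgroupOf H)) := by
      ext x
      exact hmem x x.2
    rw [h2, Subgroup.index_comap_of_surjective _ (QuotientGroup.mk'_surjective _)]
    exact S.not_dvd_index

end Known

end Run7.h333.WS
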